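import Pool.Agent.Q170.CB.Main

/-!
# The Schur property does not imply property `(S*)`

`nrm F x` is `‖x‖_F`, `space F` is the combinatorial space `X_F`, `HasSchur F` says that weakly
convergent sequences of `X_F` (tested against all bounded linear functionals of `X_F`) converge
in norm, and `PropS F` is property `(S*)`.  There is a hereditary family `F` of finite subsets
of `ℕ` covering `ℕ` such that `X_F` has the Schur property (and the identity is an isomorphism
of `X_F` with `ℓ¹`), but `F` does not satisfy `(S*)`.
-/

set_option autoImplicit false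

open scoped ENNReal

namespace Pool.Agent.Results.MP_8d662a_an.SchurWithoutStar

open Q170.CB

theorem result : ∃ F : Set (Finset ℕ), (∀ A ∈ F, ∀ B ⊆ A, B ∈ F) ∧ (∀ k, ∃ A ∈ F, k ∈ A) ∧
    (∀ (x : ℕ → ℝ) (B : Finset ℕ), ENNReal.ofReal (∑ k ∈ B, |x k|) ≤ 2 * nrm F x) ∧
    HasSchur F ∧ ¬ PropS F :=
  main

end Pool.Agent.Results.MP_8d662a_an.SchurWithoutStar
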